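import Pool.Agent.W223.HZ.Stms

/-! Project HZ (helper223), VA1: the determinants vanish, chart 1. -/

set_option autoImplicit false

namespace Pool.Agent.W591.HZ

open Polynomial Pool.Agent.W223.HZ

theorem param_comp {C₄ S L e : ℝ} {ι κ : Type} {τ : ι → ℤ} {y : ι → ℝ}
    (h : Param C₄ S L e τ y) (g : κ → ι) :
    Param C₄ S L e (fun i => τ (g i)) (fun i => y (g i)) := by
  intro m
  obtain ⟨f, l0, l1, ω, z, ε, h1, h2, h3, h4, h5, h6, h7, h8, h9⟩ := h m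
  exact ⟨f, l0, l1, fun i => ω (g i), fun i => z (g i), fun i => ε (g i), h1, h2, h3, h4,
    fun i => h5 _, fun i => h6 _, fun i => h7 _, fun i j => h8 _ j, fun i => h9 _⟩

theorem param_mono {C₄ C S L V : ℝ} (hC4 : 1 ≤ C₄) (hC : 1 ≤ C) (hS : 0 < S) (hL : 0 < L)
    {ι : Type} {τ : ι → ℤ} {y : ι → ℝ}
    (h : Param C₄ S L (C / V ^ 3) τ y) : Param (C₄ * C) S L (1 / V ^ 3) τ y := by
  intro m
  obtain ⟨f, l0, l1, ω, z, ε, h1, h2, h3, h4, h5, h6, h7, h8, h9⟩ := h m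
  have hle : C₄ ≤ C₄ * C := le_mul_of_one_le_right (by linarith) hC
  have hpow : C₄ ^ m ≤ (C₄ * C) ^ m := pow_le_pow_left₀ (by linarith) hle m
  refine ⟨f, l0, l1, ω, z, ε, h1, fun j k => (h2 j k).trans hpow, h3.trans hle, h4.trans hle,
    fun i => ?_, fun i => ?_, fun i => ?_, h8, h9⟩
  · have hpos : 0 < C₄ ^ m := pow_pos (by linarith) m
    have hw : 0 ≤ ω i := by
      by_contra hcon
      have := mul_neg_of_pos_of_neg hpos (not_le.1 hcon)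
      have := h5 i
      linarith
    exact (h5 i).trans (mul_le_mul_of_nonneg_right hpow hw)
  · refine (h6 i).trans (mul_le_mul_of_nonneg_right hle (by positivity))
  · refine (h7 i).trans (le_of_eq ?_)
    ring

/-- The determinant of the integral matrix. -/
theorem det_mat (m : ℕ) (P Q τ : Fin m ⊕ Fin m → ℤ) (T : ℝ) (hT : T ≠ 0)
    (hP : ∀ i, (P i : ℝ) ≠ 0) :
    ((Mat m P Q τ).det : ℝ) = (∏ i, (P i : ℝ)) * ((T ^ 2)⁻¹ ^ m * Matrix.det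
      (Matrix.of fun i : Fin m ⊕ Fin m =>
        Sum.elim (fun j : Fin m => (τ i : ℝ) ^ (j : ℕ))
          (fun j : Fin m => ((Q i : ℝ) * T ^ 2 / P i) * (τ i : ℝ) ^ (j : ℕ)))) := by
  set N : Matrix (Fin m ⊕ Fin m) (Fin m ⊕ Fin m) ℝ := Matrix.of fun i : Fin m ⊕ Fin m =>
        Sum.elim (fun j : Fin m => (τ i : ℝ) ^ (j : ℕ))
          (fun j : Fin m => ((Q i : ℝ) * T ^ 2 / P i) * (τ i : ℝ) ^ (j : ℕ)) with hN
  set v : Fin m ⊕ Fin m → ℝ := Sum.elim (fun _ => 1) (fun _ => (T ^ 2)⁻¹) with hv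
  have e1 : (T ^ 2)⁻¹ ^ m = ∏ i, v i := by
    rw [Fintype.prod_sum_type]
    simp [hv]
  have e2 : ((Mat m P Q τ).det : ℝ) = Matrix.det ((Mat m P Q τ).map (Int.cast : ℤ → ℝ)) :=
    (RingHom.map_det (Int.castRingHom ℝ) (Mat m P Q τ))
  rw [e1, ← Matrix.det_mul_row, ← Matrix.det_mul_column, e2]
  congr 1
  ext i j
  rcases j with j | j
  · simp [Mat, hN, hv]
  · simp only [Matrix.map_apply, Mat, Matrix.of_apply, Sum.elim_inr, hN, hv, Int.cast_mul,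
      Int.cast_pow]
    have := hP i
    field_simp

/-- The real variable facts for one point. -/
theorem point {R T V : ℝ} {a b c d p q : ℤ} (hR : 20 ≤ R) (hT : 1 / 2 ≤ T) (hV : 1 ≤ V)
    (hg : Good 200 R T V a b c d p q) (hc : Chart1 200 R T V b c d p q) :
    (p : ℝ) ≠ 0 ∧ |(a * T ^ 3 / R : ℝ)| ≤ 8000000 ∧ |(b * T / R : ℝ)| ≤ 8000000 ∧
    |(c / (R * T) : ℝ)| ≤ 8000000 ∧ |(d / (R * T ^ 3) : ℝ)| ≤ 8000000 ∧
    |(q * T ^ 2 / p : ℝ)| ≤ 8000000 ∧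
    |(a * T ^ 3 / R : ℝ) + 3 * (b * T / R) * (q * T ^ 2 / p) +
      3 * (c / (R * T)) * (q * T ^ 2 / p) ^ 2 + (d / (R * T ^ 3)) * (q * T ^ 2 / p) ^ 3| ≤
      8000000 / V ^ 3 ∧
    1 ≤ 8000000 * |(b * T / R : ℝ) + 2 * (c / (R * T)) * (q * T ^ 2 / p) +
      (d / (R * T ^ 3)) * (q * T ^ 2 / p) ^ 2| := by
  obtain ⟨h1, h2, h3, h4, h5, h6, h7⟩ := hg
  obtain ⟨h8, h9⟩ := hc
  have hR0 : 0 < R := by linarith
  have hT0 : 0 < T := by linarith
  have hV0 : 0 < V := by linarith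
  have hTV : 0 < T * V := mul_pos hT0 hV0
  have hpa : 0 < |(p : ℝ)| := by nlinarith
  have hp : (p : ℝ) ≠ 0 := abs_pos.1 hpa
  refine ⟨hp, ?_, ?_, ?_, ?_, ?_, ?_, ?_⟩
  · rw [abs_div, abs_mul, abs_of_pos hR0, abs_of_pos (pow_pos hT0 3), div_le_iff₀ hR0]
    nlinarith
  · rw [abs_div, abs_mul, abs_of_pos hR0, abs_of_pos hT0, div_le_iff₀ hR0]
    nlinarith
  · have : 0 < R * T := mul_pos hR0 hT0
    rw [abs_div, abs_of_pos this, div_le_iff₀ this]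
    nlinarith
  · have : 0 < R * T ^ 3 := mul_pos hR0 (pow_pos hT0 3)
    rw [abs_div, abs_of_pos this, div_le_iff₀ this]
    nlinarith
  · rw [abs_div, abs_mul, abs_of_pos (pow_pos hT0 2), div_le_iff₀ hpa]
    have e1 : |(q : ℝ)| * T ^ 2 ≤ 200 * V * T := by nlinarith [abs_nonneg (q : ℝ)]
    have e2 : 200 * V * T ≤ 200 * (200 * |(p : ℝ)|) := by nlinarith
    have e3 : 0 ≤ |(p : ℝ)| := abs_nonneg _
    linarith
  · have h7' : (a : ℝ) * p ^ 3 + 3 * b * p ^ 2 * q + 3 * c * p * q ^ 2 + d * q ^ 3 = 1 := by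
      exact_mod_cast h7
    have e : (a * T ^ 3 / R : ℝ) + 3 * (b * T / R) * (q * T ^ 2 / p) +
      3 * (c / (R * T)) * (q * T ^ 2 / p) ^ 2 + (d / (R * T ^ 3)) * (q * T ^ 2 / p) ^ 3 =
      T ^ 3 / (R * p ^ 3) := by
      have hRn := hR0.ne'
      have hTn := hT0.ne'
      field_simp
      linear_combination h7'
    rw [e, abs_div, abs_mul, abs_of_pos hR0, abs_pow, abs_pow, abs_of_pos hT0,
      div_le_div_iff₀ (mul_pos hR0 (pow_pos hpa 3)) (pow_pos hV0 3)]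
    have e1 : (T * V) ^ 3 ≤ (200 * |(p : ℝ)|) ^ 3 :=
      pow_le_pow_left₀ hTV.le h8 3
    have e2 : T ^ 3 * V ^ 3 ≤ 8000000 * |(p : ℝ)| ^ 3 := by
      calc T ^ 3 * V ^ 3 = (T * V) ^ 3 := by ring
        _ ≤ (200 * |(p : ℝ)|) ^ 3 := e1
        _ = 8000000 * |(p : ℝ)| ^ 3 := by ring
    have e3 : 0 < |(p : ℝ)| ^ 3 := pow_pos hpa 3
    nlinarith
  · have e : (b * T / R : ℝ) + 2 * (c / (R * T)) * (q * T ^ 2 / p) +
      (d / (R * T ^ 3)) * (q * T ^ 2 / p) ^ 2 =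
      T * ((b * p ^ 2 + 2 * c * p * q + d * q ^ 2 : ℤ) : ℝ) / (R * p ^ 2) := by
      have hRn := hR0.ne'
      have hTn := hT0.ne'
      push_cast
      field_simp
    have hpp : 0 < |(p : ℝ)| ^ 2 := pow_pos hpa 2
    rw [e, abs_div, abs_mul, abs_mul, abs_of_pos hR0, abs_of_pos hT0, abs_pow, ← mul_div_assoc,
      le_div_iff₀ (mul_pos hR0 hpp), one_mul]
    set W : ℝ := |((b * p ^ 2 + 2 * c * p * q + d * q ^ 2 : ℤ) : ℝ)| with hW
    have e1 : |(p : ℝ)| ^ 2 ≤ (200 * (T * V)) ^ 2 := pow_le_pow_left₀ hpa.le h5 2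
    have e2 : R * |(p : ℝ)| ^ 2 ≤ R * (200 * (T * V)) ^ 2 := mul_le_mul_of_nonneg_left e1 hR0.le
    have e3 : R * (200 * (T * V)) ^ 2 = 40000 * T * (R * (T * V ^ 2)) := by ring
    have e4 : 40000 * T * (R * (T * V ^ 2)) ≤ 40000 * T * (200 * W) :=
      mul_le_mul_of_nonneg_left h9 (by positivity)
    calc R * |(p : ℝ)| ^ 2 ≤ 40000 * T * (200 * W) := by linarith
      _ = 8000000 * (T * W) := by ring

theorem t (hC : StmtC1R) (hB : StmtDPB) (hP : StmtPAR) : StmtVA1 := by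
  obtain ⟨c₀, C₄, hc₀, hC₄, hC⟩ := hC 8000000 (by norm_num)
  have hCC : (1 : ℝ) ≤ C₄ * 8000000 := by linarith
  obtain ⟨C₅, hC₅, hB⟩ := hB (C₄ * 8000000) hCC
  obtain ⟨S₁, hS₁, hP⟩ := hP (C₅ * 200 ^ 2) (by linarith)
  refine ⟨c₀, max S₁ ((C₄ * 8000000) ^ 2), hc₀, le_max_of_le_left hS₁, ?_⟩
  intro R T V σ m a b c d₀ p₀ q₀ P Q D ha hR hT hS hσ hV hm hgood hg0 hch0 hij hi0 hD
  have hS1 : S₁ ≤ R * T ^ 3 := (le_max_left _ _).trans hS
  have hS2 : (C₄ * 8000000) ^ 2 ≤ R * T ^ 3 := (le_max_right _ _).trans hS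
  have hR0 : 0 < R := by linarith
  have hT0 : 0 < T := by linarith
  set S : ℝ := R * T ^ 3 with hSdef
  have hSone : 1 ≤ S := hS₁.trans hS1
  have hS0 : 0 < S := by linarith
  have hV1 : 1 ≤ V := by rw [hV]; exact Real.one_le_rpow hSone (by linarith)
  have hV0 : 0 < V := by linarith
  have hV2 : S ≤ V ^ 2 := by
    rw [hV, ← Real.rpow_natCast, ← Real.rpow_mul hS0.le]
    calc S = S ^ (1 : ℝ) := (Real.rpow_one S).symm
      _ ≤ S ^ (σ * ((2 : ℕ) : ℝ)) := by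
        refine Real.rpow_le_rpow_of_exponent_le hSone ?_
        push_cast
        linarith
  have hV3 : S ≤ V ^ 3 := by
    have : V ^ 2 ≤ V ^ 3 := pow_le_pow_right₀ hV1 (by norm_num)
    linarith
  set L : ℝ := S ^ ((1 : ℝ) / 11) with hLdef
  have hL0 : 0 < L := Real.rpow_pos_of_pos hS0 _
  have hCL : C₄ * 8000000 * L ≤ S := by
    have e1 : L ≤ S ^ ((1 : ℝ) / 2) := Real.rpow_le_rpow_of_exponent_le hSone (by norm_num)
    rw [← Real.sqrt_eq_rpow] at e1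
    have e2 : C₄ * 8000000 ≤ √S := Real.le_sqrt_of_sq_le hS2
    calc C₄ * 8000000 * L ≤ √S * √S :=
          mul_le_mul e2 e1 hL0.le (Real.sqrt_nonneg _)
      _ = S := Real.mul_self_sqrt hS0.le
  have hC4le : C₄ ≤ C₄ * 8000000 := by linarith
  have hCS : C₄ * 8000000 ≤ S := by
    have : C₄ * 8000000 ≤ (C₄ * 8000000) ^ 2 := by nlinarith
    linarith
  have hm1 : 1 ≤ m := by
    rw [hm, Nat.one_le_ceil_iff]
    linarith
  have pt0 := point hR hT hV1 hg0 hch0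
  have pt := fun i => point hR hT hV1 (hgood i).1 (hgood i).2
  -- the family
  let τ : Option (Fin m ⊕ Fin m) → ℤ := fun i => Option.elim i 0 (fun i => D i - d₀)
  let Dr : Option (Fin m ⊕ Fin m) → ℝ := fun i =>
    Option.elim i ((d₀ : ℝ) / (R * T ^ 3)) (fun i => (D i : ℝ) / (R * T ^ 3))
  let yr : Option (Fin m ⊕ Fin m) → ℝ := fun i =>
    Option.elim i ((q₀ : ℝ) * T ^ 2 / p₀) (fun i => (Q i : ℝ) * T ^ 2 / P i)
  have hpar : Param C₄ S L (8000000 / V ^ 3) τ yr := by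
    refine hC S L (8000000 / V ^ 3) (a * T ^ 3 / R) (b * T / R) (c / (R * T)) _ τ Dr yr none
      hS0 hL0.le ?_ (by positivity) ?_ ?_ pt0.2.1 pt0.2.2.1 pt0.2.2.2.1 ?_ ?_ ?_ ?_ ?_ ?_ ?_
    · exact (mul_le_mul_of_nonneg_right hC4le hL0.le).trans hCL
    · rw [← mul_div_assoc, div_le_one (pow_pos hV0 3)]
      linarith
    · have : (a : ℝ) ≠ 0 := by exact_mod_cast ha
      positivity
    · rintro (_ | i)
      · exact pt0.2.2.2.2.1
      · exact (pt i).2.2.2.2.1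
    · rintro (_ | i)
      · exact pt0.2.2.2.2.2.1
      · exact (pt i).2.2.2.2.2.1
    · rintro (_ | i)
      · exact pt0.2.2.2.2.2.2.1
      · exact (pt i).2.2.2.2.2.2.1
    · rintro (_ | i)
      · exact pt0.2.2.2.2.2.2.2
      · exact (pt i).2.2.2.2.2.2.2
    · rintro (_ | i) (_ | j)
      · change |(q₀ : ℝ) * T ^ 2 / p₀ - (q₀ : ℝ) * T ^ 2 / p₀| ≤ c₀
        rw [sub_self, abs_zero]
        exact hc₀.le
      · change |(q₀ : ℝ) * T ^ 2 / p₀ - (Q j : ℝ) * T ^ 2 / P j| ≤ c₀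
        rw [abs_sub_comm]
        exact hi0 j
      · exact hi0 i
      · exact hij i j
    · rintro (_ | i)
      · change ((0 : ℤ) : ℝ) = S * ((d₀ : ℝ) / (R * T ^ 3) - (d₀ : ℝ) / (R * T ^ 3))
        rw [sub_self, mul_zero, Int.cast_zero]
      · change ((D i - d₀ : ℤ) : ℝ) = S * ((D i : ℝ) / (R * T ^ 3) - (d₀ : ℝ) / (R * T ^ 3))
        rw [← hSdef, Int.cast_sub, ← sub_div, mul_div_cancel₀ _ hS0.ne']
    · rintro (_ | i)
      · change |((0 : ℤ) : ℝ)| ≤ L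
        rw [Int.cast_zero, abs_zero]
        exact hL0.le
      · change |((D i - d₀ : ℤ) : ℝ)| ≤ L
        rw [Int.cast_sub]
        exact hD i
  have hpar2 := param_mono hC₄ (by norm_num : (1 : ℝ) ≤ 8000000) hS0 hL0
    (param_comp hpar (fun i : Fin m ⊕ Fin m => some i))
  obtain ⟨Y, hY1, hY2⟩ := hP S σ m hS1 hσ hm
  have hY0 : 0 ≤ Y := by
    have := hY2 0 (by simp)
    refine le_trans ?_ this
    positivity
  have hdet := hB m S L V hm1 hS0 hL0 hCL hV1 _ _ hpar2 Y (fun u hu => by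
    rw [hV]; exact hY2 u hu)
  have hdm := det_mat m P Q (fun i => D i - d₀) T hT0.ne' (fun i => (pt i).1)
  have hprod : |∏ i, (P i : ℝ)| ≤ (200 * (T * V)) ^ (2 * m) := by
    rw [Finset.abs_prod]
    calc ∏ i, |(P i : ℝ)| ≤ ∏ _i : Fin m ⊕ Fin m, (200 * (T * V)) :=
          Finset.prod_le_prod (fun i _ => abs_nonneg _) (fun i _ => (hgood i).1.hp)
      _ = (200 * (T * V)) ^ (2 * m) := by
        rw [Finset.prod_const, Finset.card_univ, Fintype.card_sum, Fintype.card_fin, two_mul]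
  set Δ : ℝ := Matrix.det (Matrix.of fun i : Fin m ⊕ Fin m =>
        Sum.elim (fun j : Fin m => ((D i - d₀ : ℤ) : ℝ) ^ (j : ℕ))
          (fun j : Fin m => ((Q i : ℝ) * T ^ 2 / P i) * ((D i - d₀ : ℤ) : ℝ) ^ (j : ℕ))) with hΔ
  have hdet' : V ^ (2 * m) * |Δ| ≤ C₅ ^ (m ^ 2) * Y := hdet
  have hfin : |((Mat m P Q (fun i => D i - d₀)).det : ℝ)| < 1 := by
    rw [hdm, abs_mul, abs_mul, abs_of_nonneg (by positivity : (0 : ℝ) ≤ (T ^ 2)⁻¹ ^ m)]
    have e1 : (200 * (T * V)) ^ (2 * m) * ((T ^ 2)⁻¹ ^ m * |Δ|) =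
        (200 ^ 2) ^ m * (V ^ (2 * m) * |Δ|) := by
      rw [pow_mul, inv_pow, show (200 * (T * V)) ^ 2 = 200 ^ 2 * T ^ 2 * V ^ 2 by ring, mul_pow,
        mul_pow, pow_mul V 2 m]
      have : (T ^ 2) ^ m ≠ 0 := by positivity
      field_simp
    have e2 : ((200 : ℝ) ^ 2) ^ m ≤ (200 ^ 2) ^ (m ^ 2) :=
      pow_le_pow_right₀ (by norm_num) (by nlinarith)
    calc _ ≤ (200 * (T * V)) ^ (2 * m) * ((T ^ 2)⁻¹ ^ m * |Δ|) :=
          mul_le_mul_of_nonneg_right hprod (by positivity)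
      _ = (200 ^ 2) ^ m * (V ^ (2 * m) * |Δ|) := e1
      _ ≤ (200 ^ 2) ^ (m ^ 2) * (C₅ ^ (m ^ 2) * Y) :=
          mul_le_mul e2 hdet' (by positivity) (by positivity)
      _ = (C₅ * 200 ^ 2) ^ (m ^ 2) * Y := by rw [mul_pow]; ring
      _ < 1 := hY1
  have h0 : |(Mat m P Q (fun i => D i - d₀)).det| < 1 := by exact_mod_cast hfin
  exact Int.abs_lt_one_iff.1 h0

end Pool.Agent.W591.HZ
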